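import Pool.Agent.Helper59.LUC.All

set_option autoImplicit false

open Pool.Agent.Helper59.LUC in
/-- Let `(P, Q) ∈ S` with roots `α, β`, `α / β = η ^ k` with `η` of norm one in the imaginary quadratic field
`ℚ(√-d)`, `d` squarefree, and `d ≡ 3 mod 4`, `d ∣ k`, or `2 d ∣ k`. Then all but finitely many terms `V_n(P, Q)` have
at least two primitive prime factors. -/
theorem Pool.Agent.Helper59.LUC.Kept.ImagPowersV.result :
    ∀ (P Q : ℤ), InS P Q →
      ∀ (d k : ℕ) (a b : ℚ) (η α β : ℂ), Squarefree d → 0 < k →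
        ((d % 4 = 3 ∧ d ∣ k) ∨ 2 * d ∣ k) →
        a ^ 2 + d * b ^ 2 = 1 → η = (a : ℂ) + (b : ℂ) * ((Real.sqrt d : ℝ) : ℂ) * Complex.I →
        α + β = P → α * β = Q → α = η ^ k * β →
        {n : ℕ | (Prim (V P Q) n).ncard ≤ 1}.Finite := by
  intro P Q hS d k a b η α β hd hk hdk hab hη hs hp he
  exact All.mainV P Q hS d k a b η α β hd hk hab hη hs hp (Or.inl ⟨he, hdk⟩)
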